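import Pool.Agent.Helper42.LS.Defs

namespace Pool.Agent.Helper42.LS

lemma ca_B2_int (a : ℤ) : B2 (a : ℝ) = 1 / 6 := by
  unfold B2
  simp

lemma ca_sum_fejer (J : ℕ) (hJ : 1 ≤ J) :
    ∑ j ∈ Finset.Ico 1 J, (1 - (j : ℝ) / J) = ((J : ℝ) - 1) / 2 := by
  have hJ0 : (J : ℝ) ≠ 0 := by positivity
  have h1 : ∀ n : ℕ, 1 ≤ n → ∑ j ∈ Finset.Ico 1 n, (j : ℝ) = (n : ℝ) * (n - 1) / 2 := by
    intro n hn
    induction n, hn using Nat.le_induction with
    | base => simp
    | succ n hn ih =>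
      rw [Finset.sum_Ico_succ_top hn, ih]
      push_cast
      ring
  rw [Finset.sum_sub_distrib, ← Finset.sum_div, h1 J hJ]
  simp only [Finset.sum_const, Nat.card_Ico, nsmul_eq_mul, mul_one]
  rw [Nat.cast_sub hJ]
  push_cast
  field_simp
  ring

theorem st_CA (hF1 : ST_F1) : ST_CA := by
  refine ⟨1 / 36, by norm_num, ?_⟩
  intro V V' w t n H R hVV hw hn hH hR hRle
  have hw' : ∀ v ∈ V', 0 ≤ w v := fun v hv => hw v (hVV hv)
  have hsub : ∑ v ∈ V', w v ≤ H := by
    rw [hH]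
    exact Finset.sum_le_sum_of_subset_of_nonneg hVV (fun v hv _ => hw v hv)
  have hRH : R ≤ H := by
    refine le_trans hRle (le_trans (Finset.sum_le_sum fun v hv => ?_) hsub)
    have : (1 : ℝ) ≤ n v := by exact_mod_cast (hn v hv).1
    exact div_le_self (hw' v hv) this
  have hHpos : 0 < H := lt_of_lt_of_le hR hRH
  set σ : ℝ := H / R with hσ
  have hσ1 : 1 ≤ σ := by rw [hσ, le_div_iff₀ hR]; linarith
  have hσR : σ * R = H := by rw [hσ]; field_simp
  set X : ℕ := ⌈2 * σ⌉₊ with hX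
  have hX1 : 2 * σ ≤ X := Nat.le_ceil _
  have hX2 : (X : ℝ) ≤ 3 * σ := by
    have := Nat.ceil_lt_add_one (a := 2 * σ) (by linarith)
    linarith
  -- double counting
  have hcount : H ≤ ∑ h ∈ Finset.Ioc 0 X, ∑ v ∈ V', (if n v ∣ h then w v else 0) := by
    rw [Finset.sum_comm]
    have h1 : ∀ v ∈ V', w v * ((X : ℝ) / n v - 1) ≤
        ∑ h ∈ Finset.Ioc 0 X, (if n v ∣ h then w v else 0) := by
      intro v hv
      rw [← Finset.sum_filter, Finset.sum_const, Nat.Ioc_filter_dvd_card_eq_div, nsmul_eq_mul,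
        mul_comm]
      apply mul_le_mul_of_nonneg_right _ (hw' v hv)
      have hnv : (0 : ℝ) < n v := by exact_mod_cast (hn v hv).1
      have h2 : X < n v * (X / n v) + n v := by
        have := Nat.lt_div_mul_add (a := X) (b := n v) (hn v hv).1
        linarith [mul_comm (X / n v) (n v)]
      have h3 : (X : ℝ) < n v * ((X / n v : ℕ) : ℝ) + n v := by exact_mod_cast h2
      have h4 : (X : ℝ) / n v < ((X / n v : ℕ) : ℝ) + 1 := by
        rw [div_lt_iff₀ hnv]; linarith
      linarith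
    refine le_trans ?_ (Finset.sum_le_sum h1)
    have h5 : ∑ v ∈ V', w v * ((X : ℝ) / n v - 1) = X * ∑ v ∈ V', w v / n v - ∑ v ∈ V', w v := by
      rw [Finset.mul_sum, ← Finset.sum_sub_distrib]
      apply Finset.sum_congr rfl
      intro v hv
      ring
    rw [h5]
    have h6 : (2 * σ) * R ≤ X * ∑ v ∈ V', w v / n v :=
      mul_le_mul hX1 hRle hR.le (Nat.cast_nonneg _)
    have h7 : (2 * σ) * R = 2 * H := by rw [mul_assoc, hσR]
    linarith
  have hXpos : (0 : ℝ) < X := by linarith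
  obtain ⟨h, hh, hm⟩ : ∃ h ∈ Finset.Ioc 0 X,
      H / X ≤ ∑ v ∈ V', (if n v ∣ h then w v else 0) := by
    by_contra hcon
    push Not at hcon
    have hne : (Finset.Ioc 0 X).Nonempty := by
      rw [Finset.nonempty_Ioc]
      exact_mod_cast hXpos
    have := Finset.sum_lt_sum_of_nonempty hne hcon
    rw [Finset.sum_const, Nat.card_Ioc, nsmul_eq_mul] at this
    have h8 : ((X - 0 : ℕ) : ℝ) * (H / X) = H := by
      rw [Nat.sub_zero]; field_simp
    rw [h8] at this
    linarith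
  rw [Finset.mem_Ioc] at hh
  set m : ℝ := ∑ v ∈ V', (if n v ∣ h then w v else 0) with hmdef
  have hmR : R / 3 ≤ m := by
    refine le_trans ?_ hm
    rw [le_div_iff₀ hXpos]
    calc R / 3 * X ≤ R / 3 * (3 * σ) := mul_le_mul_of_nonneg_left hX2 (by linarith)
      _ = H := by rw [← hσR]; ring
  have hmpos : 0 < m := by linarith
  have hmH : m ≤ H := by
    refine le_trans (Finset.sum_le_sum fun v hv => ?_) hsub
    split_ifs
    · exact le_rfl
    · exact hw' v hv
  set J : ℕ := ⌈2 * H / m⌉₊ with hJ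
  have hJ1 : 2 * H / m ≤ J := Nat.le_ceil _
  have hJm : 2 * H ≤ J * m := by rwa [div_le_iff₀ hmpos] at hJ1
  have hJ2 : 2 ≤ J := by
    have h9 : (2 : ℝ) ≤ 2 * H / m := by rw [le_div_iff₀ hmpos]; linarith
    exact_mod_cast le_trans h9 hJ1
  have hJ3 : (J : ℝ) ≤ 7 * σ := by
    have h10 := Nat.ceil_lt_add_one (a := 2 * H / m) (by positivity)
    have h11 : 2 * H / m ≤ 6 * σ := by
      rw [div_le_iff₀ hmpos]
      have : σ * (R / 3) ≤ σ * m := mul_le_mul_of_nonneg_left hmR (by linarith)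
      have h12 : σ * (R / 3) = H / 3 := by rw [← hσR]; ring
      linarith
    linarith
  -- main inequality
  have hkey : ∀ v ∈ V, -(w v / 6) + (if v ∈ V' ∧ n v ∣ h then w v * ((J : ℝ) / 6) else 0) ≤
      2 * ∑ j ∈ Finset.Ico 1 J, (1 - (j : ℝ) / J) * (w v * B2 (((j * h : ℕ) : ℝ) * t v)) := by
    intro v hv
    split_ifs with hc
    · obtain ⟨hv', hd⟩ := hc
      obtain ⟨a, ha⟩ := (hn v hv').2
      obtain ⟨b, hb⟩ := hd
      have hB : ∀ j : ℕ, B2 (((j * h : ℕ) : ℝ) * t v) = 1 / 6 := by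
        intro j
        have : ((j * h : ℕ) : ℝ) * t v = ((j * b * a : ℤ) : ℝ) := by
          rw [hb]
          push_cast
          rw [← ha]
          ring
        rw [this, ca_B2_int]
      simp only [hB]
      rw [← Finset.sum_mul, ca_sum_fejer J (by omega)]
      have : (0 : ℝ) ≤ w v := hw v hv
      nlinarith
    · have h13 := hF1 J (h * t v) (by omega)
      have h14 : ∑ j ∈ Finset.Ico 1 J, (1 - (j : ℝ) / J) * (w v * B2 (((j * h : ℕ) : ℝ) * t v)) =
          w v * ∑ j ∈ Finset.Ico 1 J, (1 - (j : ℝ) / J) * B2 (j * (h * t v)) := by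
        rw [Finset.mul_sum]
        apply Finset.sum_congr rfl
        intro j _
        have : ((j * h : ℕ) : ℝ) * t v = j * (h * t v) := by push_cast; ring
        rw [this]
        ring
      rw [h14]
      have := mul_nonneg (hw v hv) h13
      linarith
  have hsum := Finset.sum_le_sum hkey
  have hL : ∑ v ∈ V, (-(w v / 6) + (if v ∈ V' ∧ n v ∣ h then w v * ((J : ℝ) / 6) else 0)) =
      -(H / 6) + m * (J / 6) := by
    rw [Finset.sum_add_distrib, Finset.sum_neg_distrib, ← Finset.sum_div, ← hH]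
    congr 1
    rw [hmdef, Finset.sum_mul]
    rw [← Finset.sum_subset hVV (f := fun v => if v ∈ V' ∧ n v ∣ h then w v * ((J : ℝ) / 6) else 0)]
    · apply Finset.sum_congr rfl
      intro v hv
      by_cases hd : n v ∣ h
      · rw [if_pos ⟨hv, hd⟩, if_pos hd]
      · rw [if_neg (fun hc => hd hc.2), if_neg hd, zero_mul]
    · intro v _ hv
      exact if_neg (fun hc => hv hc.1)
  rw [hL] at hsum
  have hRr : ∑ v ∈ V, 2 * ∑ j ∈ Finset.Ico 1 J, (1 - (j : ℝ) / J) *
      (w v * B2 (((j * h : ℕ) : ℝ) * t v)) =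
      2 * ∑ j ∈ Finset.Ico 1 J, (1 - (j : ℝ) / J) *
        ∑ v ∈ V, w v * B2 (((j * h : ℕ) : ℝ) * t v) := by
    rw [← Finset.mul_sum, Finset.sum_comm]
    congr 1
    apply Finset.sum_congr rfl
    intro j _
    rw [Finset.mul_sum]
  rw [hRr] at hsum
  obtain ⟨j, hj, hjm⟩ : ∃ j ∈ Finset.Ico 1 J,
      m / 12 ≤ ∑ v ∈ V, w v * B2 (((j * h : ℕ) : ℝ) * t v) := by
    by_contra hcon
    push Not at hcon
    have hne : (Finset.Ico 1 J).Nonempty := by
      rw [Finset.nonempty_Ico]; omega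
    have hJpos : (0 : ℝ) < J := by
      have : 0 < J := by omega
      exact_mod_cast this
    have h15 : ∑ j ∈ Finset.Ico 1 J, (1 - (j : ℝ) / J) *
        ∑ v ∈ V, w v * B2 (((j * h : ℕ) : ℝ) * t v) <
        ∑ j ∈ Finset.Ico 1 J, (1 - (j : ℝ) / J) * (m / 12) := by
      apply Finset.sum_lt_sum_of_nonempty hne
      intro j hj
      rw [Finset.mem_Ico] at hj
      apply mul_lt_mul_of_pos_left (hcon j (Finset.mem_Ico.mpr hj))
      have : (j : ℝ) < J := by exact_mod_cast hj.2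
      rw [sub_pos, div_lt_one hJpos]
      exact this
    rw [← Finset.sum_mul, ca_sum_fejer J (by omega)] at h15
    nlinarith
  rw [Finset.mem_Ico] at hj
  refine ⟨j * h, Nat.mul_pos hj.1 hh.1, ?_, ?_⟩
  · have h16 : (j : ℝ) ≤ 7 * σ := by
      have : (j : ℝ) ≤ J := by exact_mod_cast hj.2.le
      linarith
    have h17 : (h : ℝ) ≤ 3 * σ := by
      have : (h : ℝ) ≤ X := by exact_mod_cast hh.2
      linarith
    have h18 : ((j * h : ℕ) : ℝ) ≤ 7 * σ * (3 * σ) := by
      push_cast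
      exact mul_le_mul h16 h17 (Nat.cast_nonneg _) (by linarith)
    nlinarith
  · linarith

end Pool.Agent.Helper42.LS
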